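import Pool.Agent.Helper639.DM
import Pool.Agent.Helper639.EbC0

set_option autoImplicit false

namespace Pool.Agent.Results.MP_89920a_gt.BanachForm

/-- A compact space is Eberlein compact if it is homeomorphic to a subset of a (real) Banach space
that is compact in the weak topology. -/
def EberleinCompact (Y : Type) [TopologicalSpace Y] : Prop :=
  ∃ (E : Type) (_ : NormedAddCommGroup E) (_ : NormedSpace ℝ E) (_ : CompleteSpace E)
    (K : Set (WeakSpace ℝ E)), IsCompact K ∧ Nonempty (Y ≃ₜ K)

/-- A space `X` is splittable over the class of Eberlein compact spaces if for every subset `A`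
there are an Eberlein compact space `Y` and a continuous map `f : X → Y` with
`f ⁻¹ (f A) = A`. -/
def SplittableOverEberlein (X : Type) [TopologicalSpace X] : Prop :=
  ∀ A : Set X, ∃ (Y : Type) (_ : TopologicalSpace Y) (f : X → Y),
    EberleinCompact Y ∧ Continuous f ∧ f ⁻¹' (f '' A) = A

theorem c0_of_eberleinCompact {Y : Type} [TopologicalSpace Y] (hY : EberleinCompact Y) :
    ∃ (Γ : Type) (h : Y → Γ → ℝ), Helper639.Ebl.C0 h ∧ Function.Injective h := by
  obtain ⟨E, _, _, _, K, hK, ⟨φ⟩⟩ := hY
  have _ : CompactSpace K := isCompact_iff_compactSpace.mp hK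
  have _ : CompactSpace Y := φ.symm.compactSpace
  exact Helper639.Ebl.c0_of_weak (fun y => (φ y).1) (continuous_subtype_val.comp φ.continuous)
    (Subtype.val_injective.comp φ.injective)

/-- A compact (Hausdorff) space is Eberlein compact if and only if it is splittable over the class
of Eberlein compact spaces. -/
theorem result :
    ∀ (X : Type) [TopologicalSpace X] [CompactSpace X] [T2Space X],
      SplittableOverEberlein X ↔ EberleinCompact X := by
  intro X _ _ _
  constructor
  · intro hX
    obtain ⟨Γ, w, hw, hinj⟩ := Helper639.Ebl.eberlein_of_splits X (by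
      intro A
      obtain ⟨Y, _, f, hY, hf, hA⟩ := hX A
      obtain ⟨Γ, h, hh, hinj⟩ := c0_of_eberleinCompact hY
      refine ⟨Γ, fun x => h (f x), ⟨fun γ => (hh.cont γ).comp hf, fun x γ => hh.bd _ _,
        fun x ε hε => hh.fin _ _ hε⟩, ?_⟩
      intro x hx y hy heq
      apply hy
      rw [← hA]
      exact ⟨x, hx, hinj heq⟩)
    obtain ⟨E, i1, i2, i3, e, he⟩ := Helper639.Eb.c0_embed X Γ w hw.cont 1 hw.bd hw.fin hinj
    refine ⟨E, i1, i2, i3, Set.range e, isCompact_range he.continuous, ⟨he.toHomeomorph⟩⟩
  · intro hX A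
    exact ⟨X, inferInstance, id, hX, continuous_id, by simp⟩

end Pool.Agent.Results.MP_89920a_gt.BanachForm
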